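import Pool.Agent.Q106.UV.Fun3
import Pool.Agent.Q120.GM.Exists

/-!
# MP_4b1228_nt: the two families in the sieved models, for all multipliers at once

The sieved model of level `Q`: a random set `A` which contains the integers `n` coprime to `Q` independently with
probability `(Q / φ(Q)) / log n` (at most `1`), and no others (`IsModel μ (level Q) A`; `Q = 1` is Cramér's model).
For every finite number of sequences of multipliers `t` and windows, of the first kind (`q` and `(t q)^2 + 1`, `t` even)
or of the second kind (`q` and `(t q)^2 + 4`, `t` odd), the vectors of the deviations of the numbers of the `q` in the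
windows such that both numbers are in `A` from the predictions, divided by the square roots of
`2 · prediction · log n`, almost surely approach the closed unit ball and are dense in it, and the number of the `n ≤ x`
for which the vector is near `d` is `x^(1 - |d|^2 + o(1))`.
-/

set_option autoImplicit false

namespace Pool.Agent.Results.MP_4b1228_nt.AllMultipliersInTheModels

open Finset MeasureTheory ProbabilityTheory Filter
open scoped Topology
open Pool.Agent.Q120.GM (IsModel level)

/-- The constant of the family: `1` for the first (Ankeny, Chowla, Hasse), `4` for the second (Lang). -/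
def cst (k : Bool) : ℕ := if k then 4 else 1

/-- The value `(t q)^2 + 1` or `(t q)^2 + 4`. -/
def value (k : Bool) (t q : ℕ) : ℕ := (t * q) ^ 2 + cst k

/-- The multipliers of the two families: even for the first, odd for the second. -/
def Multiplier (k : Bool) (t : ℕ) : Prop := 1 ≤ t ∧ (k = false → Even t) ∧ (k = true → Odd t)

/-- The number of the `q`, `a ≤ q < b`, such that `q` and the value are in `A`. -/
noncomputable def count (A : Set ℕ) (k : Bool) (t a b : ℕ) : ℝ :=
  ({q : ℕ | a ≤ q ∧ q < b ∧ q ∈ A ∧ value k t q ∈ A}.ncard : ℝ)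

/-- The singular series of level `Q`: `(Q / φ(Q))^2` times the proportion of the residues `q` modulo `Q` such that `q` and
the value are coprime to `Q`. -/
noncomputable def series (Q : ℕ) (k : Bool) (t : ℕ) : ℝ :=
  (((range Q).filter (fun q => q.Coprime Q ∧ (value k t q).Coprime Q)).card : ℝ) / Q * ((Q : ℝ) / Nat.totient Q) ^ 2

/-- The predicted number. -/
noncomputable def predicted (Q : ℕ) (k : Bool) (t a b : ℕ) : ℝ :=
  series Q k t * ∑ q ∈ Ico a b, (Real.log q)⁻¹ * (Real.log (value k t q))⁻¹

/-- The normalized deviation for the multiplier `t n` and the window `[a n, b n)`. -/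
noncomputable def deviation (A : Set ℕ) (Q : ℕ) (k : Bool) (t a b : ℕ → ℕ) (n : ℕ) : ℝ :=
  (count A k (t n) (a n) (b n) - predicted Q k (t n) (a n) (b n)) /
    Real.sqrt (2 * predicted Q k (t n) (a n) (b n) * Real.log n)

/-- Admissible data: for every `n` and `i`, a family `k i`, a multiplier `t n i` and a window `[a n i, b n i)`. No pair
`q`, value is counted twice (`uniq`), `N n ≥ n` bounds the values, and the lengths of the windows are between
`M n ≥ (N n)^δ` and `(M n)^(3/2 - δ)`. -/
structure Data {r : ℕ} (k : Fin r → Bool) (t a b : ℕ → Fin r → ℕ) (N : ℕ → ℕ) (M : ℕ → ℝ) (δ : ℝ) : Prop where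
  pos : 0 < δ
  mult : ∀ n i, Multiplier (k i) (t n i)
  uniq : ∀ n n' i i', k i = k i' → t n i = t n' i' →
    (n = n' ∧ i = i') ∨ Disjoint (Ico (a n i) (b n i)) (Ico (a n' i') (b n' i'))
  grow : ∀ n, n ≤ N n
  bound : ∀ n i, value (k i) (t n i) (b n i) ≤ N n
  win : ∀ n i, 3 ≤ a n i ∧ a n i ≤ b n i
  size : ∀ n, (N n : ℝ) ^ δ ≤ M n
  low : ∀ n i, M n ≤ (b n i : ℝ) - a n i
  high : ∀ n i, (b n i : ℝ) - a n i ≤ M n ^ (3 / 2 - δ)

/-- The law of a sequence of vectors: it approaches the closed unit ball, all points of the closed unit ball are limit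
points, and the number of the `n ≤ x` for which the vector is near `d`, `|d| < 1`, is `x^(1 - |d|^2 + o(1))`. -/
def Law {r : ℕ} (D : ℕ → Fin r → ℝ) : Prop :=
  (∀ ε > 0, ∀ᶠ n in atTop, ∑ i, D n i ^ 2 ≤ 1 + ε) ∧
  (∀ d : Fin r → ℝ, ∑ i, d i ^ 2 ≤ 1 → ∀ ε > 0, ∃ᶠ n in atTop, ∀ i, |D n i - d i| < ε) ∧
  ∀ d : Fin r → ℝ, ∑ i, d i ^ 2 < 1 → ∀ δ > 0, ∃ ε₀ > 0, ∀ ε, 0 < ε → ε ≤ ε₀ → ∀ᶠ x : ℕ in atTop,
    (x : ℝ) ^ (1 - ∑ i, d i ^ 2 - δ) ≤ ({n : ℕ | n ≤ x ∧ ∀ i, |D n i - d i| < ε}.ncard : ℝ) ∧
    ({n : ℕ | n ≤ x ∧ ∀ i, |D n i - d i| < ε}.ncard : ℝ) ≤ (x : ℝ) ^ (1 - ∑ i, d i ^ 2 + δ)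

theorem value_mono (k : Bool) {t : ℕ} (ht : 1 ≤ t) : StrictMono (value k t) := by
  intro q q' h
  unfold value
  have h1 : t * q < t * q' := Nat.mul_lt_mul_of_pos_left h ht
  have h2 := Nat.pow_lt_pow_left h1 (n := 2) (by norm_num)
  omega

theorem value_mod (k : Bool) (t p : ℕ) {x y : ℕ} (h : x ≡ y [MOD p]) : value k t x ≡ value k t y [MOD p] := by
  unfold value
  exact ((h.mul_left t).pow 2).add_right _

theorem lt_value (k : Bool) {t q : ℕ} (ht : 1 ≤ t) (hq : 3 ≤ q) : q < value k t q := by
  unfold value
  have h1 : q ≤ t * q := Nat.le_mul_of_pos_left q ht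
  nlinarith

/-- The singular series are positive. -/
theorem exists_good (k : Bool) {t : ℕ} (ht : Multiplier k t) {Q : ℕ} (hQ : 1 ≤ Q) :
    ∃ q < Q, q.Coprime Q ∧ (value k t q).Coprime Q := by
  obtain ⟨ht1, ht2, ht3⟩ := ht
  have h1 := Pool.Agent.Q106.UV.exists_cop (fun x => x * value k t x) (fun p x y h => h.mul (value_mod k t p h))
    (fun p hp => ?_) Q hQ
  · obtain ⟨q, hq, h2⟩ := h1
    have h3 : (q * value k t q).Coprime Q := h2
    exact ⟨q, hq, h3.coprime_mul_right, h3.coprime_mul_left⟩
  · have hcop : ∀ x : ℕ, ¬ p ∣ x → ¬ p ∣ value k t x → (x * value k t x).Coprime p := by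
      intro x hx hv
      exact Nat.Coprime.mul_left ((Nat.Prime.coprime_iff_not_dvd hp).2 hx).symm ((Nat.Prime.coprime_iff_not_dvd hp).2 hv).symm
    rcases hp.eq_two_or_odd' with h2 | h2
    · refine ⟨1, hcop 1 ?_ ?_⟩
      · rw [h2]; norm_num
      · rw [h2]
        unfold value cst
        cases k with
        | false =>
          obtain ⟨s, hs⟩ := ht2 rfl
          intro h
          subst hs
          have e1 : ((s + s) * 1) ^ 2 + (if false = true then 4 else 1) = 2 * (2 * s ^ 2) + 1 := by simp; ring
          rw [e1] at h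
          omega
        | true =>
          obtain ⟨s, hs⟩ := ht3 rfl
          intro h
          subst hs
          have e1 : ((2 * s + 1) * 1) ^ 2 + (if true = true then 4 else 1) = 2 * (2 * s ^ 2 + 2 * s + 2) + 1 := by simp; ring
          rw [e1] at h
          omega
    · have hp2 : ¬ p ∣ 2 := by
        intro h
        have := (Nat.prime_dvd_prime_iff_eq hp Nat.prime_two).1 h
        subst this
        exact absurd h2 (by decide)
      have hp1 : ¬ p ∣ 1 := by
        intro h
        exact hp.one_lt.ne' (Nat.dvd_one.1 h)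
      by_cases hv : p ∣ value k t 1
      · refine ⟨2, hcop 2 hp2 ?_⟩
        intro h
        -- `p` divides `3`
        have h3 : p ∣ 3 := by
          cases k with
          | false =>
            have e1 : value false t 1 = t ^ 2 + 1 := by unfold value cst; simp
            have e2 : value false t 2 + 3 = 4 * value false t 1 := by unfold value cst; simp; ring
            exact (Nat.dvd_add_right h).1 (by rw [e2]; exact Dvd.dvd.mul_left hv 4)
          | true =>
            have e2 : value true t 2 = 2 ^ 2 * (t ^ 2 + 1) := by unfold value cst; simp; ring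
            have e3 : value true t 1 = (t ^ 2 + 1) + 3 := by unfold value cst; simp
            rw [e2] at h
            rcases (Nat.Prime.dvd_mul hp).1 h with h4 | h4
            · exact absurd (hp.dvd_of_dvd_pow h4) hp2
            · exact (Nat.dvd_add_right h4).1 (by rw [← e3]; exact hv)
        have h4 : p = 3 := (Nat.prime_dvd_prime_iff_eq hp Nat.prime_three).1 h3
        subst h4
        -- `3` does not divide `t ^ 2 + 1` nor `t ^ 2 + 4`
        have h5 : t ^ 2 % 3 = 0 ∨ t ^ 2 % 3 = 1 := by
          have h6 : t % 3 = 0 ∨ t % 3 = 1 ∨ t % 3 = 2 := by omega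
          rcases h6 with h6 | h6 | h6
          · left; rw [Nat.pow_mod, h6]
          · right; rw [Nat.pow_mod, h6]
          · right; rw [Nat.pow_mod, h6]
        cases k with
        | false =>
          have e1 : value false t 1 = t ^ 2 + 1 := by unfold value cst; simp
          rw [e1] at hv
          omega
        | true =>
          have e1 : value true t 1 = t ^ 2 + 4 := by unfold value cst; simp
          rw [e1] at hv
          omega
      · exact ⟨1, hcop 1 hp1 hv⟩

theorem series_pos {Q : ℕ} (hQ : 1 ≤ Q) (k : Bool) {t : ℕ} (ht : Multiplier k t) : 0 < series Q k t := by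
  obtain ⟨q, hq, h1, h2⟩ := exists_good k ht hQ
  have h3 : 0 < ((range Q).filter (fun q => q.Coprime Q ∧ (value k t q).Coprime Q)).card :=
    card_pos.2 ⟨q, mem_filter.2 ⟨mem_range.2 hq, h1, h2⟩⟩
  have h4 : (0 : ℝ) < ((range Q).filter (fun q => q.Coprime Q ∧ (value k t q).Coprime Q)).card := by exact_mod_cast h3
  have h5 : (0 : ℝ) < Q := by exact_mod_cast hQ
  have h6 : (0 : ℝ) < Nat.totient Q := by exact_mod_cast Nat.totient_pos.2 hQ
  unfold series
  positivity

/-- The two functions. -/
def fn (k : Bool) (t : ℕ) (s : Bool) (q : ℕ) : ℕ := if s then value k t q else q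

theorem fn_mono {k : Bool} {t : ℕ} (ht : 1 ≤ t) (s : Bool) : StrictMono (fn k t s) := by
  cases s with
  | false =>
    intro x y h
    simpa [fn] using h
  | true =>
    intro x y h
    have := value_mono k ht h
    simpa [fn] using this

theorem fn_eq {k k' : Bool} {t t' q q' : ℕ} (ht : Multiplier k t) (ht' : Multiplier k' t') (hq : 3 ≤ q) (hq' : 3 ≤ q')
    (h : Pool.Agent.Q106.UV.ft univ (fn k t) q = Pool.Agent.Q106.UV.ft univ (fn k' t') q') : q = q' ∧ k = k' ∧ t = t' := by
  have m1 : ∀ x, x ∈ Pool.Agent.Q106.UV.ft univ (fn k t) q ↔ x = q ∨ x = value k t q := by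
    intro x
    rw [Pool.Agent.Q106.UV.mem_ft]
    constructor
    · rintro ⟨s, _, e⟩
      cases s with
      | false => left; rw [← e]; rfl
      | true => right; rw [← e]; rfl
    · rintro (rfl | rfl)
      · exact ⟨false, mem_univ _, rfl⟩
      · exact ⟨true, mem_univ _, rfl⟩
  have m2 : ∀ x, x ∈ Pool.Agent.Q106.UV.ft univ (fn k' t') q' ↔ x = q' ∨ x = value k' t' q' := by
    intro x
    rw [Pool.Agent.Q106.UV.mem_ft]
    constructor
    · rintro ⟨s, _, e⟩
      cases s with
      | false => left; rw [← e]; rfl
      | true => right; rw [← e]; rfl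
    · rintro (rfl | rfl)
      · exact ⟨false, mem_univ _, rfl⟩
      · exact ⟨true, mem_univ _, rfl⟩
  have v1 := lt_value k ht.1 hq
  have v2 := lt_value k' ht'.1 hq'
  have e1 : q = q' ∨ q = value k' t' q' := (m2 q).1 (by rw [← h]; exact (m1 q).2 (Or.inl rfl))
  have e2 : q' = q ∨ q' = value k t q := (m1 q').1 (by rw [h]; exact (m2 q').2 (Or.inl rfl))
  have e3 : q = q' := by omega
  subst e3
  have e4 : value k t q = q ∨ value k t q = value k' t' q :=
    (m2 _).1 (by rw [← h]; exact (m1 _).2 (Or.inr rfl))
  have e5 : value k t q = value k' t' q := by omega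
  refine ⟨rfl, ?_⟩
  -- the values are equal
  have hx : 3 ≤ t * q := le_trans hq (Nat.le_mul_of_pos_left q ht.1)
  have hy : 3 ≤ t' * q := le_trans hq (Nat.le_mul_of_pos_left q ht'.1)
  have hsame : ∀ x y : ℕ, x ^ 2 = y ^ 2 → x = y := fun x y hxy => Nat.pow_left_injective (by norm_num : (2 : ℕ) ≠ 0) hxy
  have hdiff : ∀ x y : ℕ, 3 ≤ x → 3 ≤ y → x ^ 2 + 1 = y ^ 2 + 4 → False := by
    intro x y hx hy h
    rcases lt_or_ge y x with h1 | h1
    · nlinarith
    · nlinarith
  have hq0 : 0 < q := by omega
  cases k with
  | false =>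
    cases k' with
    | false =>
      unfold value cst at e5
      have := hsame _ _ (Nat.add_right_cancel e5)
      exact ⟨rfl, Nat.eq_of_mul_eq_mul_right hq0 this⟩
    | true =>
      exfalso
      exact hdiff (t * q) (t' * q) hx hy (by simpa [value, cst] using e5)
  | true =>
    cases k' with
    | false =>
      exfalso
      exact hdiff (t' * q) (t * q) hy hx (by simpa [value, cst] using e5.symm)
    | true =>
      unfold value cst at e5
      have := hsame _ _ (Nat.add_right_cancel e5)
      exact ⟨rfl, Nat.eq_of_mul_eq_mul_right hq0 this⟩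

/-- **The law for every sequence of multipliers and windows.** -/
theorem general {Ω : Type} [MeasurableSpace Ω] {μ : Measure Ω} [IsProbabilityMeasure μ] {A : Ω → Set ℕ} {Q : ℕ}
    (hQ : 1 ≤ Q) (hA : IsModel μ (level Q) A) {r : ℕ} (hr : 1 ≤ r) {k : Fin r → Bool} {t a b : ℕ → Fin r → ℕ} {N : ℕ → ℕ}
    {M : ℕ → ℝ} {δ : ℝ} (hD : Data k t a b N M δ) :
    ∀ᵐ ω ∂μ, Law (fun n i => deviation (A ω) Q (k i) (fun n => t n i) (fun n => a n i) (fun n => b n i) n) := by
  obtain ⟨δ', hδ'⟩ : ∃ δ', δ' = min δ (1 / 2) := ⟨_, rfl⟩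
  have h0 : 0 < δ' := by rw [hδ']; exact lt_min hD.pos (by norm_num)
  have h1 : δ' ≤ 1 / 2 := by rw [hδ']; exact min_le_right _ _
  have h2 : δ' ≤ δ := by rw [hδ']; exact min_le_left _ _
  have hi : Fin r := ⟨0, hr⟩
  have hN1 : ∀ n, 1 ≤ N n := by
    intro n
    have h3 := hD.bound n hi
    have h4 := hD.win n hi
    have h5 := lt_value (k hi) (hD.mult n hi).1 (q := b n hi) (by omega)
    omega
  have hM1 : ∀ n, 1 ≤ M n := by
    intro n
    refine (Real.one_le_rpow ?_ hD.pos.le).trans (hD.size n)
    exact_mod_cast hN1 n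
  have hser : ∀ n i, Pool.Agent.Q106.UV.fser Q (univ : Finset Bool) (fn (k i) (t n i)) = series Q (k i) (t n i) := by
    intro n i
    unfold Pool.Agent.Q106.UV.fser series Pool.Agent.Q106.UV.fcnt
    have e1 : (range Q).filter (Pool.Agent.Q106.UV.fcop Q univ (fn (k i) (t n i))) =
        (range Q).filter (fun q => q.Coprime Q ∧ (value (k i) (t n i) q).Coprime Q) := by
      refine filter_congr (fun q _ => ?_)
      unfold Pool.Agent.Q106.UV.fcop
      constructor
      · intro h
        exact ⟨h false (mem_univ _), h true (mem_univ _)⟩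
      · rintro ⟨h3, h4⟩ s _
        cases s with
        | false => exact h3
        | true => exact h4
    rw [e1]
    rfl
  have hG : Pool.Agent.Q106.UV.FD Q (fun _ : Fin r => (univ : Finset Bool)) (fun n i => fn (k i) (t n i)) N a b M δ' :=
    { ne := fun _ => ⟨true, mem_univ _⟩
      mono := fun n i s _ => fn_mono (hD.mult n i).1 s
      per := by
        intro n i s _ m
        have h3 : m + Q ≡ m [MOD Q] := by
          unfold Nat.ModEq
          rw [Nat.add_mod_right]
        cases s with
        | false => exact h3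
        | true => exact value_mod (k i) (t n i) Q h3
      dist := by
        intro n i m hm _ s _ s' _ h
        have h3 := lt_value (k i) (hD.mult n i).1 (q := m) ((hD.win n i).1.trans hm)
        cases s with
        | false =>
          cases s' with
          | false => rfl
          | true =>
            exfalso
            have h4 : m = value (k i) (t n i) m := h
            omega
        | true =>
          cases s' with
          | false =>
            exfalso
            have h4 : value (k i) (t n i) m = m := h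
            omega
          | true => rfl
      grow := hD.grow
      bd := by
        intro n i s _ m hm
        have h3 := hD.bound n i
        have h4 := hD.win n i
        have h5 := lt_value (k i) (hD.mult n i).1 (q := b n i) (by omega)
        have h6 := (value_mono (k i) (hD.mult n i).1) hm
        cases s with
        | false =>
          show m ≤ N n
          omega
        | true =>
          show value (k i) (t n i) m ≤ N n
          omega
      sing := fun n i => by
        rw [hser]
        exact series_pos hQ (k i) (hD.mult n i)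
      win := hD.win
      size := fun n => (Real.rpow_le_rpow_of_exponent_le (by exact_mod_cast hN1 n) h2).trans (hD.size n)
      low := hD.low
      high := fun n i => (hD.high n i).trans (Real.rpow_le_rpow_of_exponent_le (hM1 n) (by linarith))
      uniq := by
        intro n i i' m m' hm1 hm2 hm1' hm2' h
        obtain ⟨e1, e2, e3⟩ := fn_eq (hD.mult n i) (hD.mult n i') ((hD.win n i).1.trans hm1) ((hD.win n i').1.trans hm1') h
        rcases hD.uniq n n i i' e2 e3 with h3 | h3
        · exact h3.2
        · exfalso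
          subst e1
          exact Finset.disjoint_left.1 h3 (mem_Ico.2 ⟨hm1, hm2⟩) (mem_Ico.2 ⟨hm1', hm2'⟩)
      ov := by
        intro n n' hlt _
        have h3 : Pool.Agent.Q106.UV.ovc (fun _ : Fin r => (univ : Finset Bool)) (fun n i => fn (k i) (t n i)) a b n n' = 0 := by
          refine Pool.Agent.Q106.UV.ovc_zero (fun i m i' m' hm1 hm2 hm1' hm2' h => ?_)
          obtain ⟨e1, e2, e3⟩ := fn_eq (hD.mult n i) (hD.mult n' i') ((hD.win n i).1.trans hm1)
            ((hD.win n' i').1.trans hm1') h
          rcases hD.uniq n n' i i' e2 e3 with h4 | h4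
          · omega
          · subst e1
            exact Finset.disjoint_left.1 h4 (mem_Ico.2 ⟨hm1, hm2⟩) (mem_Ico.2 ⟨hm1', hm2'⟩)
        rw [h3, Nat.cast_zero, zero_pow (by norm_num), zero_mul]
        have h4 := hM1 n
        have h5 := hM1 n'
        positivity }
  have hlaw := Pool.Agent.Q106.UV.f_law hA hG hQ h0 h1
  refine hlaw.mono (fun ω hω => ?_)
  have hfun : (fun n i => deviation (A ω) Q (k i) (fun n => t n i) (fun n => a n i) (fun n => b n i) n) =
      Pool.Agent.Q106.UV.fD Q (A ω) (fun _ : Fin r => (univ : Finset Bool)) (fun n i => fn (k i) (t n i)) a b := by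
    funext n i
    have e1 : count (A ω) (k i) (t n i) (a n i) (b n i) =
        Pool.Agent.Q106.UV.fN (A ω) (univ : Finset Bool) (fn (k i) (t n i)) (a n i) (b n i) := by
      unfold count Pool.Agent.Q106.UV.fN
      congr 1
      congr 1
      ext q
      constructor
      · rintro ⟨h3, h4, h5, h6⟩
        refine ⟨h3, h4, fun s _ => ?_⟩
        cases s with
        | false => exact h5
        | true => exact h6
      · rintro ⟨h3, h4, h5⟩
        exact ⟨h3, h4, h5 false (mem_univ _), h5 true (mem_univ _)⟩
    have e2 : predicted Q (k i) (t n i) (a n i) (b n i) =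
        Pool.Agent.Q106.UV.fex Q (univ : Finset Bool) (fn (k i) (t n i)) (a n i) (b n i) := by
      unfold predicted Pool.Agent.Q106.UV.fex
      rw [hser]
      congr 1
      refine sum_congr rfl (fun q _ => ?_)
      unfold Pool.Agent.Q106.UV.fw
      rw [Fintype.prod_bool, mul_comm]
      rfl
    unfold deviation Pool.Agent.Q106.UV.fD
    rw [e1, e2]
  rw [hfun]
  exact hω

/-- **Result.** The models exist, the singular series are positive, and for EVERY admissible sequence of multipliers and
windows in the two families the law holds almost surely. -/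
theorem result (Q : ℕ) (hQ : 1 ≤ Q) :
    (∃ (Ω : Type) (_ : MeasurableSpace Ω) (μ : Measure Ω) (_ : IsProbabilityMeasure μ) (A : Ω → Set ℕ),
      IsModel μ (level Q) A) ∧
    (∀ (k : Bool) (t : ℕ), Multiplier k t → 0 < series Q k t) ∧
    ∀ (Ω : Type) (_ : MeasurableSpace Ω) (μ : Measure Ω) (_ : IsProbabilityMeasure μ) (A : Ω → Set ℕ),
      IsModel μ (level Q) A → ∀ (r : ℕ), 1 ≤ r → ∀ (k : Fin r → Bool) (t a b : ℕ → Fin r → ℕ) (N : ℕ → ℕ) (M : ℕ → ℝ)
        (δ : ℝ), Data k t a b N M δ →
        ∀ᵐ ω ∂μ, Law (fun n i => deviation (A ω) Q (k i) (fun n => t n i) (fun n => a n i) (fun n => b n i) n) := by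
  refine ⟨⟨ℕ → Bool, inferInstance, Pool.Agent.Q120.GM.prodMeasure (level Q), inferInstance,
    Pool.Agent.Q120.GM.trueSet, Pool.Agent.Q120.GM.isModel (level Q) (fun n => Pool.Agent.Q120.GM.level_nonneg Q n)
      (fun n => Pool.Agent.Q120.GM.level_le_one Q n)⟩, fun k t ht => series_pos hQ k ht, ?_⟩
  intro Ω _ μ _ A hA r hr k t a b N M δ hD
  exact general hQ hA hr hD

end Pool.Agent.Results.MP_4b1228_nt.AllMultipliersInTheModels
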