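import Mathlib
import Pool.Agent.Q263.PK.Gen

/-!
# The values `(2 x) ^ 2 + 1` and `(2 x + 1) ^ 2 + 4` at the integers with restricted digits

The primes of the family of Ankeny, Chowla and Hasse are values of `(2 x) ^ 2 + 1`, those of the
family of Lang are values of `(2 x + 1) ^ 2 + 4`. Fix a base `b ≥ 2`. For `k ≥ 1` choose for every
position `i < k` a set `D i` of digits, in any way, such that two digits in `D i` have a difference
without prime factors outside `b`, for example two consecutive digits. Let `S` be the set of the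
integers `0 ≤ x < b ^ k` whose `i`-th digit is in `D i` for every `i`; it may have only `2 ^ k`
elements. Let `f_A(x) = (2 x) ^ 2 + 1`, `f_B(x) = (2 x + 1) ^ 2 + 4`, and for `u ∈ {A, B}` let `S_u(y)`
be the set of the `x ∈ S` such that `f_u(x)` has no prime factor `≤ y`.

For all `Λ` and `ε > 0` there are `L`, `y₀`, `k₀`, which depend on `b`, `Λ` and `ε` only, such that
for all `k ≥ k₀`, all choices of the sets of digits and all `y ≥ y₀` with `y ^ L ≤ b ^ k`:

(1) for both `u` the number of the elements of `S_u(y)` is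

  `(1 + θ) · g_u · ∏_{i ≥ 1} |D i| · ∏_{p ≤ y, p ∤ b} (1 - ρ_u(p) / p)`, `|θ| ≤ ε`,

where `g_u` is the number of the last digits `d ∈ D 0` such that `f_u(d)` is coprime to `b`, and
`ρ_u(p)` is the number of the `x` modulo `p` such that `p ∣ f_u(x)`;

(2) for all four choices of `u` and `v`, all `T` with `x = T ∏_{p ≤ y} (1 - ρ_v(p) / p) ≤ Λ` and all
finite sets `A` the proportion of the `n ∈ S_u(y)` for which the number of the `t` in `(n, n + T]`
such that `f_v(t)` has no prime factor `≤ y` belongs to `A` differs from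
`∑_{j ∈ A} exp(-x) x ^ j / j!` by at most `ε`. So an almost prime value of one family has no influence
on the next ones, neither of the same nor of the other family.
-/

set_option autoImplicit false

namespace Pool.Agent.Results.MP_4b1228_nt.FamiliesAtDigits

open Finset Polynomial

/-- The integers `0 ≤ n < b ^ k` whose `i`-th digit in base `b` belongs to `D i`, for all `i < k`. -/
def Restricted (b k : ℕ) (D : Fin k → Finset ℕ) : Finset ℕ :=
  (Finset.range (b ^ k)).filter (fun n => ∀ i : Fin k, n / b ^ (i : ℕ) % b ∈ D i)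

/-- Each `D i` is a set of digits, and it has two digits `c < c'` such that every prime factor of
`c' - c` divides `b`. -/
def DigitSets (b k : ℕ) (D : Fin k → Finset ℕ) : Prop :=
  ∀ i, (∀ d ∈ D i, d < b) ∧ ∃ c ∈ D i, ∃ c' ∈ D i, c < c' ∧
    ∀ p : ℕ, p.Prime → p ∣ c' - c → p ∣ b

/-- The values: `u = 0` is the family of Ankeny, Chowla and Hasse, `u = 1` the one of Lang. -/
def value (u : Fin 2) (x : ℕ) : ℤ := if u = 0 then (2 * (x : ℤ)) ^ 2 + 1 else (2 * (x : ℤ) + 1) ^ 2 + 4

/-- `f_u(x)` has no prime factor `≤ y`. -/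
def Rough (u : Fin 2) (y x : ℕ) : Prop := ∀ p : ℕ, p.Prime → p ≤ y → ¬ (p : ℤ) ∣ value u x

open Classical in
/-- The set `S_u(y)`. -/
noncomputable def Start (b k : ℕ) (D : Fin k → Finset ℕ) (u : Fin 2) (y : ℕ) : Finset ℕ :=
  (Restricted b k D).filter (fun n => Rough u y n)

open Classical in
/-- The number of the `t` in `(n, n + T]` such that `f_v(t)` has no prime factor `≤ y`. -/
noncomputable def next (v : Fin 2) (y T n : ℕ) : ℕ :=
  ((Finset.Ioc n (n + T)).filter (fun t => Rough v y t)).card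

open Classical in
/-- The number of the residues `x` modulo `p` such that `p ∣ f_u(x)`. -/
noncomputable def rho (u : Fin 2) (p : ℕ) : ℕ :=
  ((range p).filter (fun x => (p : ℤ) ∣ value u x)).card

/-- The density of the `t` such that `f_v(t)` has no prime factor `≤ y`. -/
noncomputable def density (v : Fin 2) (y : ℕ) : ℝ :=
  ∏ p ∈ (Finset.Icc 1 y).filter Nat.Prime, (1 - (rho v p : ℝ) / (p : ℝ))

/-- The number of the last digits `d` such that `f_u(d)` is coprime to `b`. -/
def lastDigits (b k : ℕ) (D : Fin k → Finset ℕ) (u : Fin 2) : ℕ :=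
  (((Finset.univ : Finset (Fin k)).filter (fun i : Fin k => (i : ℕ) = 0)).biUnion
    (fun i => (D i).filter (fun d : ℕ => Int.gcd (value u d) b = 1))).card

/-- The product of the numbers of the elements of `D i` over the positions `i ≥ 1`. -/
def otherDigits (k : ℕ) (D : Fin k → Finset ℕ) : ℕ :=
  ∏ i ∈ (Finset.univ : Finset (Fin k)).filter (fun i : Fin k => (i : ℕ) ≠ 0), (D i).card

/-- The main term. -/
noncomputable def mainTerm (b k : ℕ) (D : Fin k → Finset ℕ) (u : Fin 2) (y : ℕ) : ℝ :=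
  (lastDigits b k D u : ℝ) * otherDigits k D *
    ∏ p ∈ (Finset.Icc 1 y).filter (fun p => p.Prime ∧ ¬ p ∣ b), (1 - (rho u p : ℝ) / (p : ℝ))

/-- The measure of `A` for the Poisson distribution with the mean `x`. -/
noncomputable def poisson (x : ℝ) (A : Finset ℕ) : ℝ :=
  ∑ j ∈ A, Real.exp (-x) * x ^ j / (j.factorial : ℝ)

open Pool.Agent.W123.RU.Poly (Sys Q)
open Pool.Agent.H373R2.T7 Pool.Agent.W123.RP Pool.Agent.W123.RU Pool.Agent.TH464.PO
open Pool.Agent.Q263.PK Pool.Agent.Q263.PK.Gen

/-- the polynomials -/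
noncomputable def P (u : Fin 2) : ℤ[X] := C 4 * X ^ 2 + C (4 * (u : ℤ)) * X + C (4 * (u : ℤ) + 1)

lemma P_eval (u : Fin 2) (t : ℕ) : (P u).eval (t : ℤ) = value u t := by
  unfold P value
  rw [eval_quad]
  fin_cases u
  · norm_num
    ring
  · norm_num
    ring

lemma P_sys (u : Fin 2) : Sys (fun _ : Fin 1 => P u) := by
  refine ⟨fun _ => ?_, fun _ => ?_, fun _ => ?_, fun i j _ => Subsingleton.elim i j, ?_⟩
  · unfold P
    apply irr_quad 4 _ _ (by norm_num) ⟨0, -1, 1, by ring⟩
    rintro ⟨r, hr⟩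
    fin_cases u
    · norm_num at hr
      nlinarith [mul_self_nonneg r]
    · norm_num at hr
      nlinarith [mul_self_nonneg r]
  · unfold P
    rw [deg_quad 4 _ _ (by norm_num)]
    norm_num
  · unfold P
    rw [lead_quad 4 _ _ (by norm_num)]
    norm_num
  · intro p hp
    have hz : ∀ a : ℕ, a.Prime → p ∣ a → p = a := fun a ha h =>
      (Nat.prime_dvd_prime_iff_eq hp ha).1 h
    rcases eq_or_ne p 5 with rfl | h5
    · refine ⟨2, fun _ h => ?_⟩
      rw [P_eval] at h
      fin_cases u <;> norm_num [value] at h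
    · refine ⟨0, fun _ h => ?_⟩
      rw [P_eval] at h
      fin_cases u
      · have h1 : (p : ℤ) ∣ 1 := by simpa [value] using h
        have h2 : p ∣ 1 := by exact_mod_cast h1
        exact hp.one_lt.ne' (Nat.dvd_one.1 h2)
      · have h1 : (p : ℤ) ∣ 5 := by
          norm_num [value] at h
          exact h
        have h2 : p ∣ 5 := by exact_mod_cast h1
        exact h5 (hz 5 (by norm_num) h2)

lemma Q_iff (u : Fin 2) (p m : ℕ) : Q (fun _ : Fin 1 => P u) p m ↔ (p : ℤ) ∣ value u m := by
  unfold Q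
  constructor
  · rintro ⟨_, h⟩
    rwa [P_eval] at h
  · intro h
    refine ⟨0, ?_⟩
    rwa [P_eval]

lemma P_comp_ne (u v : Fin 2) (t : ℕ) (ht : 1 ≤ t) : P u ≠ (P v).comp (X + C (t : ℤ)) := by
  intro h
  have h0 := congrArg (fun f : ℤ[X] => f.eval 0) h
  have h1 := congrArg (fun f : ℤ[X] => f.eval 1) h
  unfold P at h0 h1
  simp only [eval_comp, eval_add, eval_mul, eval_pow, eval_X, eval_C] at h0 h1
  have ht' : (1 : ℤ) ≤ t := by exact_mod_cast ht
  have h2 : 2 * (t : ℤ) = (u : ℤ) - v := by nlinarith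
  fin_cases u <;> fin_cases v
  · norm_num at h2
    omega
  · norm_num at h2
    omega
  · norm_num at h2
    omega
  · norm_num at h2
    omega

open Classical in
theorem result : ∀ b : ℕ, 2 ≤ b → ∀ Λ ε : ℝ, 0 < ε →
    ∃ L y₀ k₀ : ℕ, 1 ≤ L ∧ ∀ k : ℕ, k₀ ≤ k → ∀ D : Fin k → Finset ℕ, DigitSets b k D →
      ∀ y : ℕ, y₀ ≤ y → y ^ L ≤ b ^ k → ∀ u : Fin 2,
      |((Start b k D u y).card : ℝ) - mainTerm b k D u y| ≤ ε * mainTerm b k D u y ∧
      ∀ v : Fin 2, ∀ T : ℕ, T * density v y ≤ Λ → ∀ A : Finset ℕ,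
        |(((Start b k D u y).filter (fun n => next v y T n ∈ A)).card : ℝ) -
          (Start b k D u y).card * poisson (T * density v y) A| ≤ ε * (Start b k D u y).card := by
  intro b hb Λ ε hε
  choose L y₀ k₀ hL h using fun u v : Fin 2 => law hb (fun _ : Fin 1 => P u) (P_sys u)
    (fun _ : Fin 1 => P v) (P_sys v) (fun _ _ t ht => P_comp_ne v v t ht)
    (fun _ _ t ht => P_comp_ne u v t ht) (value u) (value v) (fun p m _ => Q_iff u p m)
    (fun p m _ => Q_iff v p m) Λ ε hε
  refine ⟨∑ u, ∑ v, L u v, ∑ u, ∑ v, y₀ u v, ∑ u, ∑ v, k₀ u v, ?_, ?_⟩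
  · exact (hL 0 0).trans ((Finset.single_le_sum (f := fun v => L 0 v) (fun _ _ => Nat.zero_le _)
      (mem_univ 0)).trans (Finset.single_le_sum (f := fun u => ∑ v, L u v)
        (fun _ _ => Nat.zero_le _) (mem_univ 0)))
  intro k hk D hD y hy hyL u
  have hb0 : 0 < b ^ k := pow_pos (by omega) _
  have hle : ∀ (f : Fin 2 → Fin 2 → ℕ) (u v : Fin 2), f u v ≤ ∑ u, ∑ v, f u v := fun f u v =>
    (Finset.single_le_sum (f := fun v => f u v) (fun _ _ => Nat.zero_le _)
      (mem_univ v)).trans (Finset.single_le_sum (f := fun u => ∑ v, f u v)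
        (fun _ _ => Nat.zero_le _) (mem_univ u))
  have key : ∀ v : Fin 2, _ := fun v => h u v k ((hle k₀ u v).trans hk) D hD y ((hle y₀ u v).trans hy) (by
    rcases Nat.eq_zero_or_pos y with h0 | h0
    · rw [h0, zero_pow (by have := hL u v; omega)]
      exact hb0.le
    · exact (Nat.pow_le_pow_right h0 (hle L u v)).trans hyL)
  exact ⟨(key 0).1, fun v => (key v).2⟩

end Pool.Agent.Results.MP_4b1228_nt.FamiliesAtDigits
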