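import Mathlib
import Pool.Agent.Q263.PK.Poly

/-!
# The gaps after the `a` with restricted digits for which `a ^ 2 + 1` is an almost prime

For primes `a ^ 2 + 1` the Hardy–Littlewood conjecture leads to the prediction that the distance
from such an `a` to the next one, divided by its mean value, has the exponential distribution. We
prove the analogue for almost primes, where moreover only the `a` with restricted digits are used
as starting points.

Fix a base `b ≥ 2`. For `k ≥ 1` choose for every position `i < k` a set `D i` of digits, in any way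
(it may depend on the position and on `k`), such that two digits in `D i` have a difference without
prime factors outside `b`, for example two consecutive digits. Let `S` be the set of the integers
`0 ≤ a < b ^ k` whose `i`-th digit is in `D i` for every `i`; it may have only `2 ^ k` elements.
Let `ρ(p)` be the number of the solutions of `x ^ 2 + 1 = 0` modulo `p` and
`V(y) = ∏_{p ≤ y} (1 - ρ(p) / p)`. Let `S(y)` be the set of the `a ∈ S` such that `a ^ 2 + 1` has no
prime factor `≤ y`.

For all `Λ` and `ε > 0` there are `L`, `y₀`, `k₀`, which depend on `b`, `Λ` and `ε` only, such that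
for all `k ≥ k₀`, all choices of the sets of digits and all `y ≥ y₀` with `y ^ L ≤ b ^ k`:

(1) if `d ^ 2 + 1` is coprime to `b` for some `d ∈ D 0` then `S(y)` has at least
`|S| V(y) / (2 b)` elements;

(2) for all `T` with `x = T V(y) ≤ Λ` and all finite sets `A` the proportion of the `a ∈ S(y)` for
which the number of the `t` in `(a, a + T]` such that `t ^ 2 + 1` has no prime factor `≤ y` belongs
to `A` differs from `∑_{j ∈ A} exp(-x) x ^ j / j!` by at most `ε`.

For `A = {0}`: the distance from `a ∈ S(y)` to the next `t > a` such that `t ^ 2 + 1` has no prime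
factor `≤ y` is more than `x / V(y)` for the proportion `exp(-x)` of the `a ∈ S(y)`, up to `ε`; for
`A = {0, ..., j - 1}` one obtains the distance to the `j`-th of these `t`.

Idea of the proof: binomial moments over `S(y)`, in each residue class modulo the small primes; they
are given by the fundamental lemma of the sieve for restricted digits in a fixed residue class
(`Pool.Agent.Q263.SW`) and by an average of the products over the sets `{0} ∪ J` of shifts.
-/

set_option autoImplicit false

namespace Pool.Agent.Results.MP_4b1228_nt.GapsFromDigits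

open Finset Polynomial

/-- The integers `0 ≤ a < b ^ k` whose `i`-th digit in base `b` belongs to `D i`, for all `i < k`. -/
def Restricted (b k : ℕ) (D : Fin k → Finset ℕ) : Finset ℕ :=
  (Finset.range (b ^ k)).filter (fun a => ∀ i : Fin k, a / b ^ (i : ℕ) % b ∈ D i)

/-- Each `D i` is a set of digits, and it has two digits `c < c'` such that every prime factor of
`c' - c` divides `b`. -/
def DigitSets (b k : ℕ) (D : Fin k → Finset ℕ) : Prop :=
  ∀ i, (∀ d ∈ D i, d < b) ∧ ∃ c ∈ D i, ∃ c' ∈ D i, c < c' ∧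
    ∀ p : ℕ, p.Prime → p ∣ c' - c → p ∣ b

/-- The number of the solutions of `x ^ 2 + 1 = 0` modulo `p`. -/
def roots (p : ℕ) : ℕ := ((Finset.range p).filter (fun r => p ∣ r ^ 2 + 1)).card

/-- The product of `1 - ρ(p) / p` over the primes `p ≤ y`. -/
noncomputable def V (y : ℕ) : ℝ :=
  ∏ p ∈ (Finset.Icc 1 y).filter Nat.Prime, (1 - (roots p : ℝ) / (p : ℝ))

/-- `t ^ 2 + 1` has no prime factor `≤ y`. -/
def Rough (y t : ℕ) : Prop := ∀ p : ℕ, p.Prime → p ≤ y → ¬ p ∣ t ^ 2 + 1

open Classical in
/-- The set `S(y)` of the `a ∈ S` such that `a ^ 2 + 1` has no prime factor `≤ y`. -/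
noncomputable def Start (b k : ℕ) (D : Fin k → Finset ℕ) (y : ℕ) : Finset ℕ :=
  (Restricted b k D).filter (fun a => Rough y a)

open Classical in
/-- The number of the `t` in `(a, a + T]` such that `t ^ 2 + 1` has no prime factor `≤ y`. -/
noncomputable def next (y T a : ℕ) : ℕ := ((Finset.Ioc a (a + T)).filter (fun t => Rough y t)).card

/-- The measure of `A` for the Poisson distribution with the mean `x`. -/
noncomputable def poisson (x : ℝ) (A : Finset ℕ) : ℝ :=
  ∑ j ∈ A, Real.exp (-x) * x ^ j / (j.factorial : ℝ)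

open Pool.Agent.H373R2.T7 Pool.Agent.W123.RP Pool.Agent.W123.RU Pool.Agent.TH464.PO
open Pool.Agent.W123.RU.Poly (Sys Q)

/-- the polynomial -/
noncomputable def F : ℤ[X] := X ^ 2 + 1

lemma F_eval (t : ℤ) : F.eval t = t ^ 2 + 1 := by
  unfold F
  simp

lemma F_eq : F = X ^ 2 + C (1 : ℤ) := by
  unfold F
  rw [map_one]

lemma F_monic : F.Monic := by
  rw [F_eq]
  exact monic_X_pow_add_C 1 (by norm_num)

lemma F_deg : F.natDegree = 2 := by
  rw [F_eq]
  exact natDegree_X_pow_add_C

lemma F_irr : Irreducible F := by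
  apply F_monic.irreducible_of_irreducible_map (Int.castRingHom ℚ)
  have h1 : F.map (Int.castRingHom ℚ) = X ^ 2 + C (1 : ℚ) := by
    rw [F_eq]
    simp
  have hdeg : (F.map (Int.castRingHom ℚ)).natDegree = 2 := by
    rw [h1]
    exact natDegree_X_pow_add_C
  apply Polynomial.irreducible_of_degree_le_three_of_not_isRoot
  · rw [hdeg]
    decide
  · intro x hx
    rw [IsRoot.def, h1] at hx
    simp only [eval_add, eval_pow, eval_X, eval_C] at hx
    nlinarith [sq_nonneg x]

lemma F_sys : Sys (fun _ : Fin 1 => F) := by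
  refine ⟨fun _ => F_irr, fun _ => by rw [F_deg]; norm_num, fun _ => by
    rw [F_monic.leadingCoeff]; norm_num, fun i j _ => Subsingleton.elim i j, ?_⟩
  intro p hp
  refine ⟨0, fun _ => ?_⟩
  rw [F_eval]
  norm_num
  intro h
  have := Int.eq_one_of_dvd_one (by positivity) h
  have h2 := hp.one_lt
  omega

lemma Q_iff (p m : ℕ) : Q (fun _ : Fin 1 => F) p m ↔ p ∣ m ^ 2 + 1 := by
  unfold Q
  have e : F.eval (m : ℤ) = ((m ^ 2 + 1 : ℕ) : ℤ) := by
    rw [F_eval]
    push_cast
    ring
  constructor
  · rintro ⟨_, h⟩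
    rw [e] at h
    exact_mod_cast h
  · intro h
    refine ⟨0, ?_⟩
    rw [e]
    exact_mod_cast h

lemma V_eq (y : ℕ) : Vq (Q (fun _ : Fin 1 => F)) y = V y := by
  classical
  unfold Vq V
  apply Finset.prod_congr rfl
  intro p _
  congr 3
  unfold nuB roots
  congr 1
  apply Finset.filter_congr
  intro r _
  exact Q_iff p r

lemma Sf_iff (y m : ℕ) : Sf (Q (fun _ : Fin 1 => F)) y m ↔ Rough y m := by
  unfold Sf Rough
  constructor
  · intro h p hp hpy hd
    exact h p (mem_pz.2 ⟨hpy, hp⟩) ((Q_iff p m).2 hd)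
  · intro h p hp hd
    exact h p (mem_pz.1 hp).2 (mem_pz.1 hp).1 ((Q_iff p m).1 hd)

lemma Start_eq (b k : ℕ) (D : Fin k → Finset ℕ) (y : ℕ) :
    Pool.Agent.Q263.PK.Fx (Q (fun _ : Fin 1 => F)) y (Pool.Agent.Q263.MD.Dig b k D) = Start b k D y := by
  classical
  unfold Pool.Agent.Q263.PK.Fx Start
  apply Finset.filter_congr
  intro n _
  exact Sf_iff y n

open Classical in
theorem result : ∀ b : ℕ, 2 ≤ b → ∀ Λ ε : ℝ, 0 < ε →
    ∃ L y₀ k₀ : ℕ, 1 ≤ L ∧ ∀ k : ℕ, k₀ ≤ k → ∀ D : Fin k → Finset ℕ, DigitSets b k D →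
      ∀ y : ℕ, y₀ ≤ y → y ^ L ≤ b ^ k →
      ((∃ i : Fin k, (i : ℕ) = 0 ∧ ∃ d ∈ D i, Nat.Coprime (d ^ 2 + 1) b) →
        (Restricted b k D).card * V y / (2 * b) ≤ ((Start b k D y).card : ℝ)) ∧
      ∀ T : ℕ, T * V y ≤ Λ → ∀ A : Finset ℕ,
        |(((Start b k D y).filter (fun a => next y T a ∈ A)).card : ℝ) -
          (Start b k D y).card * poisson (T * V y) A| ≤ ε * (Start b k D y).card := by
  intro b hb Λ ε hε
  have hNoTr := noTr_single F (by rw [F_deg]; norm_num)
  obtain ⟨L, y₀, k₀, hL, hmain⟩ := Pool.Agent.Q263.PK.poly_win2 hb (fun _ : Fin 1 => F) F_sys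
    (fun _ : Fin 1 => F) F_sys hNoTr (fun i j t ht => hNoTr i j t ht) Λ ε hε
  obtain ⟨c, _, hQ⟩ := Poly.exists_c _ F_sys
  obtain ⟨L', k₀', hL', hlow⟩ := Pool.Agent.Q263.PK.Fx_low hb c
  refine ⟨L + L', max y₀ 1, max k₀ k₀', by omega, ?_⟩
  intro k hk D hD y hy hyL
  have hy1 : 1 ≤ y := (le_max_right _ _).trans hy
  have hyL1 : y ^ L ≤ b ^ k := (Nat.pow_le_pow_right hy1 (by omega)).trans hyL
  have hyL2 : y ^ L' ≤ b ^ k := (Nat.pow_le_pow_right hy1 (by omega)).trans hyL
  constructor
  · rintro ⟨i, hi, d, hd, hcop⟩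
    have h := hlow k (by omega) D (fun i => (hD i).1) (fun i => (hD i).2) y hyL2 _ hQ
      ⟨i, hi, d, hd, fun p hp hpb hq => by
        rw [Q_iff] at hq
        exact Nat.not_coprime_of_dvd_of_dvd hp.one_lt hq hpb hcop⟩
    rw [V_eq, Start_eq] at h
    exact h
  · intro T hT A
    have h := hmain k (by omega) D (fun i => (hD i).1) (fun i => (hD i).2) y
      ((le_max_left _ _).trans hy) hyL1 T (by rw [V_eq]; exact hT) A
    rw [Start_eq, V_eq] at h
    have e1 : (Start b k D y).filter (fun n => Nw (Q (fun _ : Fin 1 => F)) y T n ∈ A) =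
        (Start b k D y).filter (fun a => next y T a ∈ A) := by
      apply Finset.filter_congr
      intro n _
      have e2 : Nw (Q (fun _ : Fin 1 => F)) y T n = next y T n :=
        Pool.Agent.Q263.PL.Nw_eq _ _ _ _ _ (Sf_iff y)
      rw [e2]
    rw [e1] at h
    exact h

end Pool.Agent.Results.MP_4b1228_nt.GapsFromDigits
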