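import Pool.Agent.Q250.NP.NatRow

/-!
# The families `(2 q n) ^ 2 + 1` and `((2 n + 1) q) ^ 2 + 4` with `q` prime: narrow progressions, uniformly in the multipliers
-/

set_option autoImplicit false

namespace Pool.Agent.Results.MP_4b1228_nt.NarrowProgressions

open Finset Filter Polynomial
open Pool.Agent.Q250.NP
open Pool.Agent.Q253.Line (W NFD rt)

/-- the constant `1` of the first family, the constant `4` of the second one -/
def cst (b : Bool) : ℕ := if b then 1 else 4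

/-- the element `(r q) ^ 2 + 1` of the first family (`b = true`), the element `(r q) ^ 2 + 4` of the second one -/
def val (b : Bool) (r q : ℕ) : ℕ := (r * q) ^ 2 + cst b

/-- the multipliers of the question: `r = 2 n` with `n > 1` in the first family, `r = 2 n + 1` with `n ≥ 1` in the second one -/
def Multiplier (b : Bool) (r : ℕ) : Prop :=
  (b = true ∧ ∃ n : ℕ, 1 < n ∧ r = 2 * n) ∨ (b = false ∧ ∃ n : ℕ, 1 ≤ n ∧ r = 2 * n + 1)

/-- multipliers `r_i` in the families `b_i` such that no prime divides `x ∏ val (b_i) (r_i) x` for all `x` -/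
def Admissible {m : ℕ} (b : Fin m → Bool) (r : Fin m → ℕ) : Prop :=
  (∀ i, Multiplier (b i) (r i)) ∧ ∀ p : ℕ, p.Prime → ∃ x : ℕ, ¬ p ∣ x * ∏ i, val (b i) (r i) x

/-- the number of the classes `x` modulo `p` with `p ∣ x ∏ val (b_i) (r_i) x` -/
def omega {m : ℕ} (b : Fin m → Bool) (r : Fin m → ℕ) (p : ℕ) : ℕ :=
  ((range p).filter (fun x : ℕ => p ∣ x * ∏ i, val (b i) (r i) x)).card

/-- the product of `1 - omega p / p` over the primes `p ≤ N` -/
noncomputable def dens {m : ℕ} (b : Fin m → Bool) (r : Fin m → ℕ) (N : ℕ) : ℝ :=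
  ∏ p ∈ (Icc 1 N).filter Nat.Prime, (1 - (omega b r p : ℝ) / p)

open Classical in
/-- the primes `N < q < 2 N` such that all prime factors of all the `val (b_i) (r_i) q` are larger than `N ^ (1/t)` -/
noncomputable def Good {m : ℕ} (t N : ℕ) (b : Fin m → Bool) (r : Fin m → ℕ) : Finset ℕ :=
  (Ioo N (2 * N)).filter (fun q : ℕ => q.Prime ∧ ∀ i, ∀ p : ℕ, p.Prime → p ∣ val (b i) (r i) q → (N : ℝ) ^ (1 / (t : ℝ)) < p)

/-- the polynomials -/
noncomputable def G {m : ℕ} (b : Fin m → Bool) (r : Fin m → ℕ) (i : Fin m) : ℤ[X] :=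
  C ((r i : ℤ) ^ 2) * X ^ 2 + C (cst (b i) : ℤ)

theorem eval_G {m : ℕ} (b : Fin m → Bool) (r : Fin m → ℕ) (i : Fin m) (x : ℕ) :
    (G b r i).eval (x : ℤ) = (val (b i) (r i) x : ℤ) := by
  unfold G val
  simp
  ring

theorem eval_all {m : ℕ} (b : Fin m → Bool) (r : Fin m → ℕ) (x : ℕ) :
    ((C (1 : ℤ) * X + C (0 : ℤ)) * ∏ i, G b r i).eval (x : ℤ) = ((x * ∏ i, val (b i) (r i) x : ℕ) : ℤ) := by
  rw [eval_mul, eval_prod]
  simp only [eval_G, eval_add, eval_mul, eval_C, eval_X]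
  push_cast
  ring

theorem cst_pos (b : Bool) : 1 ≤ cst b := by
  cases b <;> simp [cst]

theorem cst_le (b : Bool) : cst b ≤ 4 := by
  cases b <;> simp [cst]

theorem mult_pos {b : Bool} {r : ℕ} (h : Multiplier b r) : 1 ≤ r := by
  rcases h with ⟨_, n, hn, rfl⟩ | ⟨_, n, hn, rfl⟩ <;> omega

theorem rep {m k n : ℕ} {b : Fin m → Bool} {r : Fin m → ℕ} (h : Admissible b r) (hn : 4 ≤ n) (hs : ∀ i, r i ≤ n ^ k) :
    Rep (2 * m) (2 * k + 4) n 1 0 (fun y => y) (fun i y => val (b i) (r i) y) (G b r) := by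
  constructor
  · refine (natDegree_prod_le _ _).trans ?_
    calc _ ≤ ∑ _i : Fin m, 2 := by
          apply sum_le_sum
          intro i _
          unfold G
          compute_degree
      _ = 2 * m := by simp [mul_comm]
  · intro p hp
    obtain ⟨x, hx⟩ := h.2 p hp
    refine ⟨x, ?_⟩
    rw [eval_all, Int.natCast_dvd_natCast]
    exact hx
  · intro y h1 h2
    exact ⟨by simp, h1⟩
  · intro y h1 h2 i
    rw [eval_G, Int.natAbs_natCast]
  · intro y h1 h2 i
    have h3 := mult_pos (h.1 i)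
    have h4 := cst_pos (b i)
    have h5 := cst_le (b i)
    constructor
    · have h6 : 1 ≤ (r i * y) ^ 2 := Nat.one_le_pow _ _ (Nat.mul_pos h3 (by omega))
      unfold val
      omega
    · have h6 : (r i * y) ^ 2 ≤ (n ^ k * (2 * n)) ^ 2 := Nat.pow_le_pow_left (Nat.mul_le_mul (hs i) h2.le) 2
      have h7 : 1 ≤ n ^ (2 * k) := Nat.one_le_pow _ _ (by omega)
      have h8 : (n ^ k * (2 * n)) ^ 2 = n ^ (2 * k) * (4 * n ^ 2) := by
        rw [mul_pow, ← pow_mul, mul_comm k 2]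
        ring
      have h9 : 4 * n ^ 2 + 4 ≤ n ^ 4 := by
        have e1 : n ^ 4 = n ^ 2 * n ^ 2 := by ring
        have e2 : 16 ≤ n ^ 2 := by
          calc 16 = 4 ^ 2 := by norm_num
            _ ≤ n ^ 2 := Nat.pow_le_pow_left hn 2
        rw [e1]
        nlinarith
      calc val (b i) (r i) y ≤ n ^ (2 * k) * (4 * n ^ 2) + 4 := by
            unfold val
            omega
        _ ≤ n ^ (2 * k) * (4 * n ^ 2) + n ^ (2 * k) * 4 := by omega
        _ = n ^ (2 * k) * (4 * n ^ 2 + 4) := by ring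
        _ ≤ n ^ (2 * k) * n ^ 4 := Nat.mul_le_mul_left _ h9
        _ = n ^ (2 * k + 4) := by rw [pow_add]

theorem Good_eq {m : ℕ} (t N : ℕ) (b : Fin m → Bool) (r : Fin m → ℕ) :
    Good t N b r = T (fun y => y) (fun i y => val (b i) (r i) y) t N := rfl

theorem dens_eq {m : ℕ} (b : Fin m → Bool) (r : Fin m → ℕ) (N : ℕ) :
    dens b r N = W ((C (1 : ℤ) * X + C (0 : ℤ)) * ∏ i, G b r i) N := by
  unfold dens W
  apply prod_congr rfl
  intro p _
  unfold omega rt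
  simp only [eval_all, Int.natCast_dvd_natCast]

theorem not_dvd_cst {b : Bool} {p r : ℕ} (hp : p.Prime) (hm : Multiplier b r) (hpr : p ∣ r) : ¬ p ∣ cst b := by
  intro h
  rcases hm with ⟨rfl, n, hn, rfl⟩ | ⟨rfl, n, hn, rfl⟩
  · simp only [cst, if_true, Nat.dvd_one] at h
    exact hp.one_lt.ne' h
  · have h4 : p ∣ 2 ^ 2 := by simpa [cst] using h
    have h2 : p ∣ 2 := hp.dvd_of_dvd_pow h4
    have h5 : p = 2 := (Nat.prime_dvd_prime_iff_eq hp Nat.prime_two).1 h2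
    rw [h5] at hpr
    omega

/-- a single multiplier is always admissible -/
theorem adm_one {b : Bool} {r : ℕ} (h : Multiplier b r) : Admissible (fun _ : Fin 1 => b) (fun _ => r) := by
  refine ⟨fun _ => h, fun p hp => ?_⟩
  simp only [Fin.prod_univ_one]
  by_contra hcon
  push Not at hcon
  have h1 : p ∣ val b r 1 := by simpa using hcon 1
  have hpr : ¬ p ∣ r := by
    intro hpr
    apply not_dvd_cst hp h hpr
    have h2 : p ∣ (r * 1) ^ 2 := Dvd.dvd.pow (hpr.mul_right 1) (by norm_num)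
    exact (Nat.dvd_add_right h2).1 h1
  -- a second value
  have key : ∀ x : ℕ, ¬ p ∣ x → p ∣ x ^ 2 - 1 ∨ x = 0 := by
    intro x hx
    rcases Nat.eq_zero_or_pos x with h0 | h0
    · exact Or.inr h0
    left
    have h2 : p ∣ val b r x := (hp.dvd_mul.1 (hcon x)).resolve_left hx
    have h3 : p ∣ val b r x - val b r 1 := Nat.dvd_sub h2 h1
    have h4 : val b r x - val b r 1 = r ^ 2 * (x ^ 2 - 1) := by
      unfold val
      have h5 : (r * x) ^ 2 = r ^ 2 * (x ^ 2 - 1) + r ^ 2 := by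
        have h6 : 1 ≤ x ^ 2 := Nat.one_le_pow _ _ h0
        calc (r * x) ^ 2 = r ^ 2 * x ^ 2 := by ring
          _ = r ^ 2 * ((x ^ 2 - 1) + 1) := by rw [Nat.sub_add_cancel h6]
          _ = _ := by ring
      rw [h5, mul_one]
      omega
    rw [h4] at h3
    exact (hp.dvd_mul.1 h3).resolve_left fun h5 => hpr (hp.dvd_of_dvd_pow h5)
  have hp2 : p ≠ 2 := by
    rintro rfl
    rcases h with ⟨rfl, n, hn, rfl⟩ | ⟨rfl, n, hn, rfl⟩
    · exact hpr ⟨n, rfl⟩
    · unfold val cst at h1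
      rw [Nat.dvd_add_left (by norm_num)] at h1
      exact hpr (by simpa using Nat.prime_two.dvd_of_dvd_pow h1)
  have h3 : p = 3 := by
    have h2 : p ∣ 2 ^ 2 - 1 := (key 2 (fun h => hp2 ((Nat.prime_dvd_prime_iff_eq hp Nat.prime_two).1 h))).resolve_right (by norm_num)
    exact (Nat.prime_dvd_prime_iff_eq hp Nat.prime_three).1 (by simpa using h2)
  subst h3
  -- squares modulo 3
  have h4 : r % 3 = 1 ∨ r % 3 = 2 := by
    have : r % 3 ≠ 0 := fun h0 => hpr (Nat.dvd_of_mod_eq_zero h0)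
    omega
  have h5 : r ^ 2 % 3 = 1 := by
    rcases h4 with h4 | h4 <;> rw [pow_two, Nat.mul_mod, h4]
  have h6 : val b r 1 % 3 = 2 := by
    unfold val cst
    rw [mul_one]
    rcases h with ⟨rfl, _⟩ | ⟨rfl, _⟩
    · simp only [if_true]; omega
    · simp only [Bool.false_eq_true, if_false]; omega
  omega

/-- **The families of the question with `q` prime: narrow progressions, uniformly in the multipliers.** -/
theorem result (m k : ℕ) : ∃ t : ℕ, 1 ≤ t ∧ ∃ c : ℝ, 0 < c ∧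
    (∀ b r, Multiplier b r → Admissible (fun _ : Fin 1 => b) (fun _ => r)) ∧
    (∃ N₀ : ℕ, ∀ N : ℕ, N₀ ≤ N → ∀ (b : Fin m → Bool) (r : Fin m → ℕ), Admissible b r → (∀ i, r i ≤ N ^ k) →
      c / Real.log N ^ (2 * m + 1) ≤ dens b r N ∧ c * (N * dens b r N) ≤ ((Good t N b r).card : ℝ)) ∧
    (∀ (L : ℕ) (δ : ℝ), 0 < δ → ∃ D N₀ : ℕ, ∀ N : ℕ, N₀ ≤ N → ∀ (b : Fin m → Bool) (r : Fin m → ℕ), Admissible b r →
      (∀ i, r i ≤ N ^ k) → ∀ S ⊆ Good t N b r, δ * ((Good t N b r).card : ℝ) ≤ S.card →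
        ∃ x d : ℕ, 1 ≤ d ∧ (d : ℝ) ≤ Real.log N ^ D ∧ ∀ j < L, x + j * d ∈ S) ∧
    (∀ (L h : ℕ), 1 ≤ h → ∃ D N₀ : ℕ, ∀ N : ℕ, N₀ ≤ N → ∀ (b : Fin m → Bool) (r : Fin m → ℕ), Admissible b r →
      (∀ i, r i ≤ N ^ k) → ∀ col : ℕ → Fin h, ∃ (s : Fin m → ℕ) (κ : Fin h) (x d : ℕ), (∀ i, 1 ≤ s i ∧ s i ≤ t * (2 * k + 4)) ∧
        1 ≤ d ∧ (d : ℝ) ≤ Real.log N ^ D ∧ ∀ j < L, N < x + j * d ∧ x + j * d < 2 * N ∧ (x + j * d).Prime ∧ col (x + j * d) = κ ∧
          ∀ i, (val (b i) (r i) (x + j * d)).primeFactorsList.length = s i ∧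
            ∀ p : ℕ, p.Prime → p ∣ val (b i) (r i) (x + j * d) → (N : ℝ) ^ (1 / (t : ℝ)) < p) := by
  classical
  obtain ⟨t, ht, H⟩ := natRow m (2 * m) (2 * k + 4)
  obtain ⟨c, hc, ⟨N1, h1⟩, h2, h3⟩ := H 1 0 (by norm_num)
  refine ⟨t, ht, c, hc, fun b r h => adm_one h, ⟨max N1 4, fun n hn b r ha hs => ?_⟩, fun L δ hδ => ?_, fun L q hq => ?_⟩
  · rw [dens_eq, Good_eq]
    exact h1 n ((le_max_left _ _).trans hn) _ _ _ (rep ha ((le_max_right _ _).trans hn) hs)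
  · obtain ⟨D, N, h4⟩ := h2 L δ hδ
    refine ⟨D, max N 4, fun n hn b r ha hs S hS hSc => ?_⟩
    rw [Good_eq] at hS hSc
    exact h4 n ((le_max_left _ _).trans hn) _ _ _ (rep ha ((le_max_right _ _).trans hn) hs) S hS hSc
  · obtain ⟨D, N, h4⟩ := h3 L q hq
    refine ⟨D, max N 4, fun n hn b r ha hs col => ?_⟩
    obtain ⟨s, κ, x, d, g1, g2, g3, g4⟩ := h4 n ((le_max_left _ _).trans hn) _ _ _
      (rep ha ((le_max_right _ _).trans hn) hs) col
    refine ⟨s, κ, x, d, g1, g2, g3, fun j hj => ?_⟩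
    obtain ⟨g5, g6, g7⟩ := g4 j hj
    unfold T at g5
    rw [mem_filter, mem_Ioo] at g5
    exact ⟨g5.1.1, g5.1.2, g5.2.1, g6, fun i => ⟨g7 i, g5.2.2 i⟩⟩

end Pool.Agent.Results.MP_4b1228_nt.NarrowProgressions
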